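import Mathlib

/-!
# MP_663fff_lc: definitions

Protocols, facets, two-level polytopes, edges, covers of vertex figures.
-/

namespace Pool.Agent.Lib.MP_663fff_lc

/-- `HasProtocol M A B n`: on the rows `A` and the columns `B` of the 0/1 matrix `M` there is a
deterministic two-party protocol with at most `n` bits after which both players know the entry.
A leaf is a combinatorial rectangle on which the matrix is constant; otherwise one of the players
sends one bit, that is, the set of rows (of columns) is split into two disjoint parts. -/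
inductive HasProtocol {α β : Type*} (M : α → β → Prop) : Set α → Set β → ℕ → Prop
  | leaf (A : Set α) (B : Set β) (n : ℕ)
      (h : ∀ x ∈ A, ∀ x' ∈ A, ∀ y ∈ B, ∀ y' ∈ B, (M x y ↔ M x' y')) : HasProtocol M A B n
  | alice (A₁ A₂ : Set α) (B : Set β) (n : ℕ) (hd : Disjoint A₁ A₂)
      (h₁ : HasProtocol M A₁ B n) (h₂ : HasProtocol M A₂ B n) :
      HasProtocol M (A₁ ∪ A₂) B (n + 1)
  | bob (A : Set α) (B₁ B₂ : Set β) (n : ℕ) (hd : Disjoint B₁ B₂)
      (h₁ : HasProtocol M A B₁ n) (h₂ : HasProtocol M A B₂ n) :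
      HasProtocol M A (B₁ ∪ B₂) (n + 1)

section Poly

variable {E : Type*} [AddCommGroup E] [Module ℝ E]

/-- The inequality `p.1 x ≤ p.2` holds on the finite set `V`. -/
def Valid (V : Finset E) (p : (E →ₗ[ℝ] ℝ) × ℝ) : Prop := ∀ v ∈ V, p.1 v ≤ p.2

/-- The points of `V` at which the inequality `p.1 x ≤ p.2` is an equality. -/
def tight (V : Finset E) (p : (E →ₗ[ℝ] ℝ) × ℝ) : Set E := {v | v ∈ V ∧ p.1 v = p.2}

/-- The inequality `p.1 x ≤ p.2` defines a facet of `conv V` (where `V` spans the
`d`-dimensional space `E`): it is valid and the points of `V` at which it is an equality span an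
affine subspace of dimension `d - 1`. -/
def IsFacet (V : Finset E) (d : ℕ) (p : (E →ₗ[ℝ] ℝ) × ℝ) : Prop :=
  Valid V p ∧ (tight V p).Nonempty ∧
    Module.finrank ℝ (affineSpan ℝ (tight V p)).direction = d - 1

/-- `V` is the vertex set of a full-dimensional two-level polytope in the `d`-dimensional space
`E`: for each facet there is a parallel hyperplane such that every vertex is on one of the
two hyperplanes. -/
def IsTwoLevel (V : Finset E) (d : ℕ) : Prop :=
  ConvexIndependent ℝ (fun v : V => (v.1 : E)) ∧ affineSpan ℝ (V : Set E) = ⊤ ∧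
    ∀ p : (E →ₗ[ℝ] ℝ) × ℝ, IsFacet V d p → ∃ b : ℝ, ∀ v ∈ V, p.1 v = p.2 ∨ p.1 v = b

/-- `[v, u]` is an edge of `conv V`: some linear functional is maximal over `V` exactly at
`v` and `u`. -/
def IsEdge (V : Finset E) (v u : E) : Prop :=
  u ∈ V ∧ u ≠ v ∧ ∃ h : E →ₗ[ℝ] ℝ, h u = h v ∧ ∀ w ∈ V, w ≠ v → w ≠ u → h w < h v

/-- The vertex figure at `v` of the face of `conv V` given by the valid inequality `g` has a
rectangle cover of size `2 ^ c`: there are `2 ^ c` pairs of a set `R j` of facets of `conv V`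
containing `v` and a set `C j` of edges at `v` in the face such that no edge of `C j` lies in a
facet of `R j`, and such that every pair of a facet containing `v` and an edge `[v, u]` in the
face that does not lie in this facet occurs in one of the products `R j × C j`. -/
def FigureCover (V : Finset E) (d : ℕ) (g : (E →ₗ[ℝ] ℝ) × ℝ) (v : E) (c : ℕ) : Prop :=
  ∃ (R : Fin (2 ^ c) → Set ((E →ₗ[ℝ] ℝ) × ℝ)) (C : Fin (2 ^ c) → Set E),
    (∀ j, ∀ p ∈ R j, IsFacet V d p ∧ v ∈ tight V p) ∧
    (∀ j, ∀ u ∈ C j, IsEdge V v u ∧ u ∈ tight V g) ∧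
    (∀ j, ∀ p ∈ R j, ∀ u ∈ C j, u ∉ tight V p) ∧
    ∀ p u, IsFacet V d p → v ∈ tight V p → IsEdge V v u → u ∈ tight V g → u ∉ tight V p →
      ∃ j, p ∈ R j ∧ u ∈ C j

end Poly

end Pool.Agent.Lib.MP_663fff_lc
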