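import Mathlib
import Pool.Agent.Lib.MP_663fff_lc.Defs

section

/-!
# MP_663fff_lc: protocols from rectangle covers and low rank
-/

open Module

namespace Pool.Agent.Lib.MP_663fff_lc

variable {α β : Type*}

theorem hp_empty_left (M : α → β → Prop) (B : Set β) (n : ℕ) : HasProtocol M ∅ B n :=
  HasProtocol.leaf _ _ _ (by intro x hx; exact absurd hx (Set.notMem_empty x))

theorem hp_empty_right (M : α → β → Prop) (A : Set α) (n : ℕ) : HasProtocol M A ∅ n :=
  HasProtocol.leaf _ _ _ (by intro x _ x' _ y hy; exact absurd hy (Set.notMem_empty y))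

theorem hp_succ {M : α → β → Prop} {A : Set α} {B : Set β} {n : ℕ} (h : HasProtocol M A B n) :
    HasProtocol M A B (n + 1) := by
  have := HasProtocol.alice A ∅ B n (by simp) h (hp_empty_left M B n)
  simpa using this

theorem hp_mono {M : α → β → Prop} {A : Set α} {B : Set β} {n m : ℕ} (h : HasProtocol M A B n)
    (hnm : n ≤ m) : HasProtocol M A B m := by
  induction m, hnm using Nat.le_induction with
  | base => exact h
  | succ k _ ih => exact hp_succ ih

/-- restriction to smaller sets of rows and columns, and change of the matrix -/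
theorem hp_transfer {M N : α → β → Prop} {A : Set α} {B : Set β} {n : ℕ}
    (h : HasProtocol N A B n) :
    ∀ (A' : Set α) (B' : Set β), A' ⊆ A → B' ⊆ B →
      (∀ x ∈ A', ∀ x' ∈ A', ∀ y ∈ B', ∀ y' ∈ B', (N x y ↔ N x' y') → (M x y ↔ M x' y')) →
      HasProtocol M A' B' n := by
  induction h with
  | leaf A B n h =>
    intro A' B' hA hB hM
    exact HasProtocol.leaf _ _ _ (fun x hx x' hx' y hy y' hy' =>
      hM x hx x' hx' y hy y' hy' (h x (hA hx) x' (hA hx') y (hB hy) y' (hB hy')))
  | alice A₁ A₂ B n hd h₁ h₂ ih₁ ih₂ =>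
    intro A' B' hA hB hM
    have e : A' = (A' ∩ A₁) ∪ (A' ∩ A₂) := by
      rw [← Set.inter_union_distrib_left]
      exact (Set.inter_eq_left.2 hA).symm
    rw [e]
    refine HasProtocol.alice _ _ _ _
      (hd.mono Set.inter_subset_right Set.inter_subset_right) ?_ ?_
    · exact ih₁ _ _ Set.inter_subset_right hB
        (fun x hx x' hx' y hy y' hy' => hM x hx.1 x' hx'.1 y hy y' hy')
    · exact ih₂ _ _ Set.inter_subset_right hB
        (fun x hx x' hx' y hy y' hy' => hM x hx.1 x' hx'.1 y hy y' hy')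
  | bob A B₁ B₂ n hd h₁ h₂ ih₁ ih₂ =>
    intro A' B' hA hB hM
    have e : B' = (B' ∩ B₁) ∪ (B' ∩ B₂) := by
      rw [← Set.inter_union_distrib_left]
      exact (Set.inter_eq_left.2 hB).symm
    rw [e]
    refine HasProtocol.bob _ _ _ _
      (hd.mono Set.inter_subset_right Set.inter_subset_right) ?_ ?_
    · exact ih₁ _ _ hA Set.inter_subset_right
        (fun x hx x' hx' y hy y' hy' => hM x hx x' hx' y hy.1 y' hy'.1)
    · exact ih₂ _ _ hA Set.inter_subset_right
        (fun x hx x' hx' y hy y' hy' => hM x hx x' hx' y hy.1 y' hy'.1)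

theorem hp_sub {M : α → β → Prop} {A A' : Set α} {B B' : Set β} {n : ℕ}
    (h : HasProtocol M A B n) (hA : A' ⊆ A) (hB : B' ⊆ B) : HasProtocol M A' B' n :=
  hp_transfer h A' B' hA hB (fun _ _ _ _ _ _ _ _ h => h)

/-- Alice names one of `2 ^ L` classes of rows -/
theorem hp_rows {M : α → β → Prop} {B : Set β} {n : ℕ} (idx : α → ℕ) :
    ∀ (L : ℕ) (A : Set α) (s : ℕ), (∀ x ∈ A, s ≤ idx x ∧ idx x < s + 2 ^ L) →
      (∀ j, HasProtocol M {x | x ∈ A ∧ idx x = j} B n) → HasProtocol M A B (n + L) := by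
  intro L
  induction L with
  | zero =>
    intro A s hA h
    refine hp_sub (h s) ?_ le_rfl
    intro x hx
    have := hA x hx
    refine ⟨hx, ?_⟩
    simp at this
    omega
  | succ L ih =>
    intro A s hA h
    have e : A = {x | x ∈ A ∧ idx x < s + 2 ^ L} ∪ {x | x ∈ A ∧ s + 2 ^ L ≤ idx x} := by
      ext x
      simp only [Set.mem_union, Set.mem_ofPred_eq]
      constructor
      · intro hx
        rcases lt_or_ge (idx x) (s + 2 ^ L) with h' | h'
        · exact Or.inl ⟨hx, h'⟩
        · exact Or.inr ⟨hx, h'⟩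
      · rintro (h' | h') <;> exact h'.1
    rw [e]
    refine HasProtocol.alice _ _ _ _ ?_ ?_ ?_
    · rw [Set.disjoint_left]
      intro x hx hx'
      simp only [Set.mem_ofPred_eq] at hx hx'
      omega
    · refine ih _ s ?_ ?_
      · intro x hx
        exact ⟨(hA x hx.1).1, hx.2⟩
      · intro j
        exact hp_sub (h j) (fun x hx => ⟨hx.1.1, hx.2⟩) le_rfl
    · refine ih _ (s + 2 ^ L) ?_ ?_
      · intro x hx
        have := (hA x hx.1).2
        rw [pow_succ] at this
        exact ⟨hx.2, by omega⟩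
      · intro j
        exact hp_sub (h j) (fun x hx => ⟨hx.1.1, hx.2⟩) le_rfl

/-- Bob names one of `2 ^ L` classes of columns -/
theorem hp_cols {M : α → β → Prop} {A : Set α} {n : ℕ} (idx : β → ℕ) :
    ∀ (L : ℕ) (B : Set β) (s : ℕ), (∀ x ∈ B, s ≤ idx x ∧ idx x < s + 2 ^ L) →
      (∀ j, HasProtocol M A {x | x ∈ B ∧ idx x = j} n) → HasProtocol M A B (n + L) := by
  intro L
  induction L with
  | zero =>
    intro B s hB h
    refine hp_sub (h s) le_rfl ?_
    intro x hx
    have := hB x hx
    refine ⟨hx, ?_⟩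
    simp at this
    omega
  | succ L ih =>
    intro B s hB h
    have e : B = {x | x ∈ B ∧ idx x < s + 2 ^ L} ∪ {x | x ∈ B ∧ s + 2 ^ L ≤ idx x} := by
      ext x
      simp only [Set.mem_union, Set.mem_ofPred_eq]
      constructor
      · intro hx
        rcases lt_or_ge (idx x) (s + 2 ^ L) with h' | h'
        · exact Or.inl ⟨hx, h'⟩
        · exact Or.inr ⟨hx, h'⟩
      · rintro (h' | h') <;> exact h'.1
    rw [e]
    refine HasProtocol.bob _ _ _ _ ?_ ?_ ?_
    · rw [Set.disjoint_left]
      intro x hx hx'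
      simp only [Set.mem_ofPred_eq] at hx hx'
      omega
    · refine ih _ s ?_ ?_
      · intro x hx
        exact ⟨(hB x hx.1).1, hx.2⟩
      · intro j
        exact hp_sub (h j) le_rfl (fun x hx => ⟨hx.1.1, hx.2⟩)
    · refine ih _ (s + 2 ^ L) ?_ ?_
      · intro x hx
        have := (hB x hx.1).2
        rw [pow_succ] at this
        exact ⟨hx.2, by omega⟩
      · intro j
        exact hp_sub (h j) le_rfl (fun x hx => ⟨hx.1.1, hx.2⟩)

/-! ### rank -/

section Rank

open scoped Classical

variable [Fintype β]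

/-- set to zero outside `B` -/
noncomputable def mask (B : Set β) : (β → ℝ) →ₗ[ℝ] (β → ℝ) where
  toFun f := B.indicator f
  map_add' f g := by
    funext y
    simp only [Set.indicator_apply, Pi.add_apply]
    split_ifs <;> simp
  map_smul' r f := by
    funext y
    simp only [Set.indicator_apply, Pi.smul_apply, RingHom.id_apply, smul_eq_mul]
    split_ifs <;> simp

theorem mask_apply (B : Set β) (f : β → ℝ) (y : β) : mask B f y = B.indicator f y := rfl

theorem mask_mask (B C : Set β) (f : β → ℝ) : mask C (mask B f) = mask (B ∩ C) f := by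
  funext y
  simp only [mask_apply, Set.indicator_apply, Set.mem_inter_iff]
  by_cases h1 : y ∈ B <;> by_cases h2 : y ∈ C <;> simp [h1, h2]

/-- the span of the rows, restricted to the columns `B` -/
noncomputable def rowSpace (N : α → β → ℝ) (A : Set α) (B : Set β) : Submodule ℝ (β → ℝ) :=
  (Submodule.span ℝ (N '' A)).map (mask B)

/-- rank of the submatrix -/
noncomputable def rk (N : α → β → ℝ) (A : Set α) (B : Set β) : ℕ := finrank ℝ (rowSpace N A B)

theorem rowSpace_mono {N : α → β → ℝ} {A A' : Set α} {B : Set β} (h : A' ⊆ A) :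
    rowSpace N A' B ≤ rowSpace N A B :=
  Submodule.map_mono (Submodule.span_mono (Set.image_mono h))

theorem rowSpace_map (N : α → β → ℝ) (A : Set α) (B C : Set β) :
    (rowSpace N A B).map (mask C) = rowSpace N A (B ∩ C) := by
  unfold rowSpace
  rw [← Submodule.map_comp]
  congr 1
  apply LinearMap.ext
  intro f
  exact mask_mask B C f

theorem rk_mono {N : α → β → ℝ} {A A' : Set α} {B B' : Set β} (h : A' ⊆ A) (h' : B' ⊆ B) :
    rk N A' B' ≤ rk N A B := by
  have e : B' = B ∩ B' := (Set.inter_eq_right.2 h').symm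
  unfold rk
  calc finrank ℝ (rowSpace N A' B') ≤ finrank ℝ (rowSpace N A B') :=
        Submodule.finrank_mono (rowSpace_mono h)
    _ = finrank ℝ ((rowSpace N A B).map (mask B')) := by rw [rowSpace_map, ← e]
    _ ≤ finrank ℝ (rowSpace N A B) := Submodule.finrank_map_le _ _

/-- if `N = 1` on `R × C` then the ranks of `R × B` and `A × C` add up to at most the rank
of `A × B`, plus one -/
theorem rk_rect {N : α → β → ℝ} {A R : Set α} {B C : Set β} (hR : R ⊆ A) (hC : C ⊆ B)
    (h : ∀ x ∈ R, ∀ y ∈ C, N x y = 1) : rk N R B + rk N A C ≤ rk N A B + 1 := by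
  have e : B ∩ C = C := Set.inter_eq_right.2 hC
  have key : ∀ W : Submodule ℝ (β → ℝ), finrank ℝ (W.map (mask C)) +
      finrank ℝ (LinearMap.ker ((mask C).domRestrict W)) = finrank ℝ W := by
    intro W
    have h1 := LinearMap.finrank_range_add_finrank_ker ((mask C).domRestrict W)
    have h2 : LinearMap.range ((mask C).domRestrict W) = W.map (mask C) := by
      rw [LinearMap.range_domRestrict]
    rw [h2] at h1
    exact h1
  have k1 := key (rowSpace N A B)
  have k2 := key (rowSpace N R B)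
  rw [rowSpace_map, e] at k1 k2
  have hker : finrank ℝ (LinearMap.ker ((mask C).domRestrict (rowSpace N R B))) ≤
      finrank ℝ (LinearMap.ker ((mask C).domRestrict (rowSpace N A B))) := by
    have hle : rowSpace N R B ≤ rowSpace N A B := rowSpace_mono hR
    let f : LinearMap.ker ((mask C).domRestrict (rowSpace N R B)) →ₗ[ℝ]
        LinearMap.ker ((mask C).domRestrict (rowSpace N A B)) :=
      LinearMap.codRestrict _
        ((Submodule.inclusion hle).comp (Submodule.subtype _)) (by
          intro z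
          have hz := z.2
          rw [LinearMap.mem_ker] at hz ⊢
          exact hz)
    refine LinearMap.finrank_le_finrank_of_injective (f := f) ?_
    intro a b hab
    have h3 : ((f a).1.1 : β → ℝ) = (f b).1.1 := by rw [hab]
    apply Subtype.ext
    apply Subtype.ext
    exact h3
  have hone : finrank ℝ (rowSpace N R C) ≤ 1 := by
    have hsub : rowSpace N R C ≤ Submodule.span ℝ {mask C (fun _ => (1 : ℝ))} := by
      unfold rowSpace
      rw [Submodule.map_span, Submodule.span_le]
      rintro _ ⟨_, ⟨x, hx, rfl⟩, rfl⟩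
      have : mask C (N x) = mask C (fun _ => (1 : ℝ)) := by
        funext y
        simp only [mask_apply, Set.indicator_apply]
        split_ifs with hy
        · exact h x hx y hy
        · rfl
      rw [this]
      exact Submodule.mem_span_singleton_self _
    refine (Submodule.finrank_mono hsub).trans ?_
    refine (finrank_span_le_card _).trans ?_
    simp
  unfold rk
  omega

/-- rank at most one: two bits -/
theorem hp_rank_one {N : α → β → ℝ} {A : Set α} {B : Set β}
    (h01 : ∀ x ∈ A, ∀ y ∈ B, N x y = 0 ∨ N x y = 1) (hr : rk N A B ≤ 1) :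
    HasProtocol (fun x y => N x y = 1) A B 2 := by
  have e : A = {x | x ∈ A ∧ ∃ y ∈ B, N x y = 1} ∪ {x | x ∈ A ∧ ¬ ∃ y ∈ B, N x y = 1} := by
    ext x
    simp only [Set.mem_union, Set.mem_ofPred_eq]
    by_cases h : ∃ y ∈ B, N x y = 1
    · constructor
      · intro hx
        exact Or.inl ⟨hx, h⟩
      · rintro (h' | h') <;> exact h'.1
    · constructor
      · intro hx
        exact Or.inr ⟨hx, h⟩
      · rintro (h' | h') <;> exact h'.1
  rw [e]
  refine HasProtocol.alice _ _ _ _ ?_ ?_ ?_
  · rw [Set.disjoint_left]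
    intro x hx hx'
    exact hx'.2 hx.2
  · by_cases hne : ∃ x0, x0 ∈ A ∧ ∃ y ∈ B, N x0 y = 1
    · obtain ⟨x0, hx0, y0, hy0, hxy0⟩ := hne
      have hprin : (rowSpace N A B).IsPrincipal :=
        (Submodule.finrank_le_one_iff_isPrincipal _).1 hr
      obtain ⟨g, hg⟩ := hprin
      have hmem : ∀ x ∈ A, ∃ a : ℝ, a • g = mask B (N x) := by
        intro x hx
        have : mask B (N x) ∈ rowSpace N A B :=
          Submodule.mem_map_of_mem (Submodule.subset_span ⟨x, hx, rfl⟩)
        rw [hg, Submodule.mem_span_singleton] at this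
        exact this
      have hval : ∀ x ∈ A, ∀ y ∈ B, ∀ a : ℝ, a • g = mask B (N x) → N x y = a * g y := by
        intro x _ y hy a ha
        have h1 := congrFun ha y
        simp only [Pi.smul_apply, smul_eq_mul, mask_apply, Set.indicator_of_mem hy] at h1
        exact h1.symm
      have heq : ∀ x ∈ A, (∃ y ∈ B, N x y = 1) → ∀ y ∈ B, N x y = N x0 y := by
        intro x hx hxy y hy
        obtain ⟨y1, hy1, hxy1⟩ := hxy
        obtain ⟨a, ha⟩ := hmem x0 hx0
        obtain ⟨b, hb⟩ := hmem x hx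
        have q1 : a * g y0 = 1 := by rw [← hval x0 hx0 y0 hy0 a ha]; exact hxy0
        have q2 : b * g y1 = 1 := by rw [← hval x hx y1 hy1 b hb]; exact hxy1
        have hb0 : b ≠ 0 := by
          rintro rfl
          simp at q2
        have hg0 : g y0 ≠ 0 := by
          intro h
          rw [h] at q1
          simp at q1
        have q3 : b * g y0 = 1 := by
          rcases h01 x hx y0 hy0 with h | h
          · rw [hval x hx y0 hy0 b hb] at h
            exact absurd h (mul_ne_zero hb0 hg0)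
          · rw [← hval x hx y0 hy0 b hb]
            exact h
        have hab : a = b := mul_right_cancel₀ hg0 (q1.trans q3.symm)
        rw [hval x hx y hy b hb, hval x0 hx0 y hy a ha, hab]
      have eB : B = {y | y ∈ B ∧ N x0 y = 1} ∪ {y | y ∈ B ∧ N x0 y ≠ 1} := by
        ext y
        simp only [Set.mem_union, Set.mem_ofPred_eq]
        tauto
      rw [eB]
      refine HasProtocol.bob _ _ _ _ ?_ ?_ ?_
      · rw [Set.disjoint_left]
        intro y hy hy'
        exact hy'.2 hy.2
      · refine HasProtocol.leaf _ _ _ ?_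
        intro x hx x' hx' y hy y' hy'
        have hxB : ∃ y ∈ B, N x y = 1 := by
          obtain ⟨y2, hy2, h2⟩ := hx.2
          rw [← eB] at hy2
          exact ⟨y2, hy2, h2⟩
        have hxB' : ∃ y ∈ B, N x' y = 1 := by
          obtain ⟨y2, hy2, h2⟩ := hx'.2
          rw [← eB] at hy2
          exact ⟨y2, hy2, h2⟩
        rw [heq x hx.1 hxB y hy.1, heq x' hx'.1 hxB' y' hy'.1, hy.2, hy'.2]
      · refine HasProtocol.leaf _ _ _ ?_
        intro x hx x' hx' y hy y' hy'
        have hxB : ∃ y ∈ B, N x y = 1 := by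
          obtain ⟨y2, hy2, h2⟩ := hx.2
          rw [← eB] at hy2
          exact ⟨y2, hy2, h2⟩
        have hxB' : ∃ y ∈ B, N x' y = 1 := by
          obtain ⟨y2, hy2, h2⟩ := hx'.2
          rw [← eB] at hy2
          exact ⟨y2, hy2, h2⟩
        rw [heq x hx.1 hxB y hy.1, heq x' hx'.1 hxB' y' hy'.1]
        exact ⟨fun h => absurd h hy.2, fun h => absurd h hy'.2⟩
    · have : {x | x ∈ A ∧ ∃ y ∈ B, N x y = 1} = ∅ := by
        ext x
        simp only [Set.mem_ofPred_eq, Set.mem_empty_iff_false, iff_false]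
        intro hx
        exact hne ⟨x, hx⟩
      rw [this]
      exact hp_empty_left _ _ _
  · refine HasProtocol.leaf _ _ _ ?_
    intro x hx x' hx' y hy y' hy'
    constructor
    · intro h
      exact absurd ⟨y, hy, h⟩ hx.2
    · intro h
      exact absurd ⟨y', hy', h⟩ hx'.2

/-- protocols from a cover of the ones by `2 ^ c` rectangles and from the rank -/
theorem hp_of_cover {N : α → β → ℝ} {c : ℕ} {A0 : Set α} {B0 : Set β}
    (h01 : ∀ x ∈ A0, ∀ y ∈ B0, N x y = 0 ∨ N x y = 1)
    (R : Fin (2 ^ c) → Set α) (C : Fin (2 ^ c) → Set β)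
    (h1 : ∀ j, ∀ x ∈ R j, ∀ y ∈ C j, x ∈ A0 → y ∈ B0 → N x y = 1)
    (hcov : ∀ x ∈ A0, ∀ y ∈ B0, N x y = 1 → ∃ j, x ∈ R j ∧ y ∈ C j) :
    ∀ (r : ℕ) (A : Set α) (B : Set β), A ⊆ A0 → B ⊆ B0 → rk N A B ≤ r →
      HasProtocol (fun x y => N x y = 1) A B (2 * (c + 1) * Nat.clog 2 r + 2) := by
  intro r
  induction r using Nat.strong_induction_on with
  | _ r ih =>
    intro A B hA hB hr
    rcases Nat.lt_or_ge r 2 with h2 | h2
    · refine hp_mono (hp_rank_one (fun x hx y hy => h01 x (hA hx) y (hB hy)) (by omega)) ?_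
      omega
    · have hlog : Nat.clog 2 r = Nat.clog 2 ((r + 1) / 2) + 1 := by
        rw [Nat.clog_of_two_le (by norm_num) h2, show r + 2 - 1 = r + 1 by omega]
      have hT : 2 * (c + 1) * Nat.clog 2 r + 2 =
          (2 * (c + 1) * Nat.clog 2 ((r + 1) / 2) + 2 + (c + 1)) + (c + 1) := by
        rw [hlog]
        ring
      have hlt : (r + 1) / 2 < r := by omega
      set T := 2 * (c + 1) * Nat.clog 2 ((r + 1) / 2) + 2 with hTdef
      let good : Fin (2 ^ c) → Prop := fun j => rk N (A ∩ R j) B ≤ (r + 1) / 2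
      have hbad : ∀ j, ¬ good j → rk N A (B ∩ C j) ≤ (r + 1) / 2 := by
        intro j hj
        have hrect := rk_rect (N := N) (A := A) (R := A ∩ R j) (B := B) (C := B ∩ C j)
          Set.inter_subset_left Set.inter_subset_left
          (fun x hx y hy => h1 j x hx.2 y hy.2 (hA hx.1) (hB hy.1))
        have : (r + 1) / 2 < rk N (A ∩ R j) B := not_le.1 hj
        omega
      let idx : α → ℕ := fun x =>
        if h : ∃ j, good j ∧ x ∈ R j then ((Classical.choose h : Fin (2 ^ c)) : ℕ) else 2 ^ c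
      let idy : β → ℕ := fun y =>
        if h : ∃ j, ¬ good j ∧ y ∈ C j then ((Classical.choose h : Fin (2 ^ c)) : ℕ) else 2 ^ c
      have hidx : ∀ x, (∃ j, good j ∧ x ∈ R j ∧ idx x = (j : ℕ)) ∨
          ((¬ ∃ j, good j ∧ x ∈ R j) ∧ idx x = 2 ^ c) := by
        intro x
        by_cases h : ∃ j, good j ∧ x ∈ R j
        · left
          exact ⟨Classical.choose h, (Classical.choose_spec h).1, (Classical.choose_spec h).2,
            by simp only [idx]; rw [dif_pos h]⟩
        · right
          exact ⟨h, by simp only [idx]; rw [dif_neg h]⟩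
      have hidy : ∀ y, (∃ j, ¬ good j ∧ y ∈ C j ∧ idy y = (j : ℕ)) ∨
          ((¬ ∃ j, ¬ good j ∧ y ∈ C j) ∧ idy y = 2 ^ c) := by
        intro y
        by_cases h : ∃ j, ¬ good j ∧ y ∈ C j
        · left
          exact ⟨Classical.choose h, (Classical.choose_spec h).1, (Classical.choose_spec h).2,
            by simp only [idy]; rw [dif_pos h]⟩
        · right
          exact ⟨h, by simp only [idy]; rw [dif_neg h]⟩
      have hpow : 2 ^ (c + 1) = 2 ^ c + 2 ^ c := by rw [pow_succ]; ring
      have hpos : 0 < 2 ^ c := by positivity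
      rw [hT]
      refine hp_rows idx (c + 1) A 0 ?_ ?_
      · intro x _
        refine ⟨Nat.zero_le _, ?_⟩
        rcases hidx x with ⟨j, _, _, hj⟩ | ⟨_, hj⟩
        · have := j.2
          omega
        · omega
      · intro i
        rcases Nat.lt_or_ge i (2 ^ c) with hi | hi
        · -- a named class of rows
          by_cases hg : good ⟨i, hi⟩
          · have hsub : {x | x ∈ A ∧ idx x = i} ⊆ A ∩ R ⟨i, hi⟩ := by
              intro x hx
              refine ⟨hx.1, ?_⟩
              rcases hidx x with ⟨j, _, hj2, hj3⟩ | ⟨_, hj⟩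
              · have : j = ⟨i, hi⟩ := Fin.ext (hj3.symm.trans hx.2)
                rw [← this]
                exact hj2
              · have := hx.2
                omega
            have hrk : rk N {x | x ∈ A ∧ idx x = i} B ≤ (r + 1) / 2 :=
              (rk_mono hsub le_rfl).trans hg
            exact hp_mono (ih _ hlt _ _ (fun x hx => hA hx.1) hB hrk) (by omega)
          · have hempty : {x | x ∈ A ∧ idx x = i} = ∅ := by
              ext x
              simp only [Set.mem_ofPred_eq, Set.mem_empty_iff_false, iff_false]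
              rintro ⟨_, hx⟩
              rcases hidx x with ⟨j, hj1, _, hj3⟩ | ⟨_, hj⟩
              · have : j = ⟨i, hi⟩ := Fin.ext (hj3.symm.trans hx)
                rw [this] at hj1
                exact hg hj1
              · omega
            rw [hempty]
            exact hp_empty_left _ _ _
        · -- the remaining rows
          refine hp_cols idy (c + 1) B 0 ?_ ?_
          · intro y _
            refine ⟨Nat.zero_le _, ?_⟩
            rcases hidy y with ⟨j, _, _, hj⟩ | ⟨_, hj⟩
            · have := j.2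
              omega
            · omega
          · intro k
            have hA' : {x | x ∈ A ∧ idx x = i} ⊆ A := fun x hx => hx.1
            rcases Nat.lt_or_ge k (2 ^ c) with hk | hk
            · by_cases hg : good ⟨k, hk⟩
              · have hempty : {y | y ∈ B ∧ idy y = k} = ∅ := by
                  ext y
                  simp only [Set.mem_ofPred_eq, Set.mem_empty_iff_false, iff_false]
                  rintro ⟨_, hy⟩
                  rcases hidy y with ⟨j, hj1, _, hj3⟩ | ⟨_, hj⟩
                  · have : j = ⟨k, hk⟩ := Fin.ext (hj3.symm.trans hy)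
                    rw [this] at hj1
                    exact hj1 hg
                  · omega
                rw [hempty]
                exact hp_empty_right _ _ _
              · have hsub : {y | y ∈ B ∧ idy y = k} ⊆ B ∩ C ⟨k, hk⟩ := by
                  intro y hy
                  refine ⟨hy.1, ?_⟩
                  rcases hidy y with ⟨j, _, hj2, hj3⟩ | ⟨_, hj⟩
                  · have : j = ⟨k, hk⟩ := Fin.ext (hj3.symm.trans hy.2)
                    rw [← this]
                    exact hj2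
                  · have := hy.2
                    omega
                have hrk : rk N {x | x ∈ A ∧ idx x = i} {y | y ∈ B ∧ idy y = k} ≤ (r + 1) / 2 :=
                  (rk_mono hA' hsub).trans (hbad _ hg)
                exact ih _ hlt _ _ (fun x hx => hA hx.1) (fun y hy => hB hy.1) hrk
            · refine HasProtocol.leaf _ _ _ ?_
              have hno : ∀ x ∈ {x | x ∈ A ∧ idx x = i}, ∀ y ∈ {y | y ∈ B ∧ idy y = k},
                  ¬ N x y = 1 := by
                intro x hx y hy hxy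
                obtain ⟨j, hj1, hj2⟩ := hcov x (hA hx.1) y (hB hy.1) hxy
                by_cases hg : good j
                · rcases hidx x with ⟨j', _, _, hj'⟩ | ⟨hj', _⟩
                  · have h3 := j'.2
                    have h4 := hx.2
                    omega
                  · exact hj' ⟨j, hg, hj1⟩
                · rcases hidy y with ⟨j', _, _, hj'⟩ | ⟨hj', _⟩
                  · have h3 := j'.2
                    have h4 := hy.2
                    omega
                  · exact hj' ⟨j, hg, hj2⟩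
              intro x hx x' hx' y hy y' hy'
              exact ⟨fun h => absurd h (hno x hx y hy), fun h => absurd h (hno x' hx' y' hy')⟩

end Rank

end Pool.Agent.Lib.MP_663fff_lc
end

section

/-!
# MP_663fff_lc: facets and edges of two-level polytopes
-/

open Module

namespace Pool.Agent.Lib.MP_663fff_lc

section Lin

variable {E : Type*} [AddCommGroup E] [Module ℝ E]

theorem exists_functional {S : Set E} {z : E} (hz : z ∈ S) (h : affineSpan ℝ S ≠ ⊤) :
    ∃ g : E →ₗ[ℝ] ℝ, g ≠ 0 ∧ ∀ w ∈ S, g w = g z := by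
  have hne : (affineSpan ℝ S : Set E).Nonempty := ⟨z, subset_affineSpan ℝ S hz⟩
  have hdir : (affineSpan ℝ S).direction < ⊤ := by
    rw [lt_top_iff_ne_top]
    intro h'
    exact h ((AffineSubspace.direction_eq_top_iff_of_nonempty hne).1 h')
  obtain ⟨g, hg, hle⟩ := Submodule.exists_le_ker_of_lt_top _ hdir
  refine ⟨g, hg, fun w hw => ?_⟩
  have h1 : w -ᵥ z ∈ (affineSpan ℝ S).direction :=
    AffineSubspace.vsub_mem_direction (subset_affineSpan ℝ S hw) (subset_affineSpan ℝ S hz)
  have h2 := hle h1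
  rw [LinearMap.mem_ker, vsub_eq_sub, map_sub] at h2
  linarith

theorem eq_zero_of_const {V : Finset E} (hV : affineSpan ℝ (V : Set E) = ⊤) {g : E →ₗ[ℝ] ℝ}
    {e : ℝ} (h : ∀ w ∈ V, g w = e) : g = 0 := by
  have h1 : vectorSpan ℝ (V : Set E) = ⊤ := by
    rw [← direction_affineSpan, hV, AffineSubspace.direction_top]
  have h2 : vectorSpan ℝ (V : Set E) ≤ LinearMap.ker g := by
    rw [vectorSpan_def, Submodule.span_le]
    rintro _ ⟨a, ha, b, hb, rfl⟩
    simp only [SetLike.mem_coe, LinearMap.mem_ker, vsub_eq_sub, map_sub]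
    rw [h a ha, h b hb, sub_self]
  rw [h1, top_le_iff, LinearMap.ker_eq_top] at h2
  exact h2

/-- one rotation step -/
theorem rotate_step {V : Finset E} (hV : affineSpan ℝ (V : Set E) = ⊤)
    {q : (E →ₗ[ℝ] ℝ) × ℝ} (hq : Valid V q) {z : E}
    (hT : affineSpan ℝ (insert z (tight V q)) ≠ ⊤) :
    ∃ q' : (E →ₗ[ℝ] ℝ) × ℝ, Valid V q' ∧ tight V q ⊆ tight V q' ∧
      (∃ w ∈ tight V q', w ∉ tight V q) ∧ q'.1 z - q'.2 = q.1 z - q.2 := by
  obtain ⟨g0, hg0, hg0c⟩ := exists_functional (Set.mem_insert z _) hT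
  have h0 : ∃ g : E →ₗ[ℝ] ℝ, (∀ w ∈ tight V q, g w = g z) ∧ ∃ w ∈ V, g z < g w := by
    have hex : ∃ w ∈ V, g0 w ≠ g0 z := by
      by_contra hcon
      push Not at hcon
      exact hg0 (eq_zero_of_const hV hcon)
    obtain ⟨w, hw, hne⟩ := hex
    rcases lt_or_gt_of_ne hne with h | h
    · refine ⟨-g0, fun y hy => ?_, w, hw, ?_⟩
      · simp only [LinearMap.neg_apply]
        rw [hg0c y (Set.mem_insert_of_mem _ hy)]
      · simp only [LinearMap.neg_apply]
        linarith
    · exact ⟨g0, fun y hy => hg0c y (Set.mem_insert_of_mem _ hy), w, hw, h⟩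
  obtain ⟨g, hgc, w1, hw1, hw1g⟩ := h0
  classical
  have hne : (V.filter (fun w => g z < g w)).Nonempty :=
    ⟨w1, Finset.mem_filter.2 ⟨hw1, hw1g⟩⟩
  obtain ⟨w0, hw0, hmin⟩ := Finset.exists_min_image _
    (fun w => (q.2 - q.1 w) / (g w - g z)) hne
  rw [Finset.mem_filter] at hw0
  obtain ⟨hw0V, hw0g⟩ := hw0
  have hw0t : w0 ∉ tight V q := fun h => by
    have := hgc w0 h
    linarith
  have hlt : q.1 w0 < q.2 := lt_of_le_of_ne (hq w0 hw0V) (fun h => hw0t ⟨hw0V, h⟩)
  set t0 : ℝ := (q.2 - q.1 w0) / (g w0 - g z) with ht0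
  have ht0pos : 0 < t0 := div_pos (by linarith) (by linarith)
  refine ⟨(q.1 + t0 • g, q.2 + t0 * g z), ?_, ?_, ⟨w0, ⟨hw0V, ?_⟩, hw0t⟩, ?_⟩
  · intro w hw
    simp only [LinearMap.add_apply, LinearMap.smul_apply, smul_eq_mul]
    rcases lt_or_ge (g z) (g w) with h | h
    · have h1 := hmin w (Finset.mem_filter.2 ⟨hw, h⟩)
      rw [le_div_iff₀ (by linarith)] at h1
      nlinarith
    · have h1 := hq w hw
      nlinarith [mul_nonneg ht0pos.le (sub_nonneg.2 h)]
  · intro w hw
    refine ⟨hw.1, ?_⟩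
    simp only [LinearMap.add_apply, LinearMap.smul_apply, smul_eq_mul]
    rw [hgc w hw, hw.2]
  · simp only [LinearMap.add_apply, LinearMap.smul_apply, smul_eq_mul]
    have h1 : t0 * (g w0 - g z) = q.2 - q.1 w0 := div_mul_cancel₀ _ (by linarith)
    linarith
  · simp only [LinearMap.add_apply, LinearMap.smul_apply, smul_eq_mul]
    ring

theorem rotate_aux {V : Finset E} (hV : affineSpan ℝ (V : Set E) = ⊤) {z : E} :
    ∀ (n : ℕ) (q : (E →ₗ[ℝ] ℝ) × ℝ), Valid V q → V.card - (tight V q).ncard = n →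
      ∃ q' : (E →ₗ[ℝ] ℝ) × ℝ, Valid V q' ∧ tight V q ⊆ tight V q' ∧
        affineSpan ℝ (insert z (tight V q')) = ⊤ ∧ q'.1 z - q'.2 = q.1 z - q.2 := by
  intro n
  induction n using Nat.strong_induction_on with
  | _ n ih =>
    intro q hq hn
    by_cases hT : affineSpan ℝ (insert z (tight V q)) = ⊤
    · exact ⟨q, hq, le_rfl, hT, rfl⟩
    · obtain ⟨q1, hv1, hsub1, ⟨w, hw1, hw2⟩, hz1⟩ := rotate_step hV hq hT
      have hfin : ∀ p : (E →ₗ[ℝ] ℝ) × ℝ, (tight V p).Finite := fun p =>
        V.finite_toSet.subset (fun x hx => hx.1)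
      have hcard : (tight V q).ncard < (tight V q1).ncard :=
        Set.ncard_lt_ncard ⟨hsub1, fun h => hw2 (h hw1)⟩ (hfin q1)
      have hle : (tight V q1).ncard ≤ V.card := by
        rw [← Set.ncard_coe_finset V]
        exact Set.ncard_le_ncard (fun x hx => hx.1) V.finite_toSet
      obtain ⟨q2, hv2, hsub2, hT2, hz2⟩ := ih _ (by omega) q1 hv1 rfl
      exact ⟨q2, hv2, hsub1.trans hsub2, hT2, hz2.trans hz1⟩

/-- every valid inequality that is not an equality at `z` is dominated by a facet with the same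
property -/
theorem rotate [FiniteDimensional ℝ E] {V : Finset E} (hV : affineSpan ℝ (V : Set E) = ⊤)
    (hd : 1 ≤ finrank ℝ E) {p : (E →ₗ[ℝ] ℝ) × ℝ} (hp : Valid V p) {z : E} (hz : p.1 z ≠ p.2) :
    ∃ q : (E →ₗ[ℝ] ℝ) × ℝ, IsFacet V (finrank ℝ E) q ∧ tight V p ⊆ tight V q ∧
      q.1 z - q.2 = p.1 z - p.2 := by
  obtain ⟨q, hv, hsub, hT, hz'⟩ := rotate_aux hV (z := z) _ p hp rfl
  refine ⟨q, ⟨hv, ?_, ?_⟩, hsub, hz'⟩
  · by_contra hne
    rw [Set.not_nonempty_iff_eq_empty] at hne
    rw [hne] at hT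
    have h1 : (affineSpan ℝ (insert z (∅ : Set E))).direction = ⊤ := by
      rw [hT, AffineSubspace.direction_top]
    have h2 : (affineSpan ℝ (insert z (∅ : Set E))).direction = ⊥ := by
      rw [direction_affineSpan]
      simp
    rw [h2] at h1
    have h3 : finrank ℝ (⊥ : Submodule ℝ E) = finrank ℝ (⊤ : Submodule ℝ E) := by rw [h1]
    rw [finrank_bot, finrank_top] at h3
    omega
  · have hne : (tight V q).Nonempty := by
      by_contra hne
      rw [Set.not_nonempty_iff_eq_empty] at hne
      rw [hne] at hT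
      have h1 : (affineSpan ℝ (insert z (∅ : Set E))).direction = ⊤ := by
        rw [hT, AffineSubspace.direction_top]
      have h2 : (affineSpan ℝ (insert z (∅ : Set E))).direction = ⊥ := by
        rw [direction_affineSpan]
        simp
      rw [h2] at h1
      have h3 : finrank ℝ (⊥ : Submodule ℝ E) = finrank ℝ (⊤ : Submodule ℝ E) := by rw [h1]
      rw [finrank_bot, finrank_top] at h3
      omega
    obtain ⟨t, ht⟩ := hne
    have h1 : (affineSpan ℝ (insert z (tight V q))).direction =
        Submodule.span ℝ {z -ᵥ t} ⊔ (affineSpan ℝ (tight V q)).direction := by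
      rw [← affineSpan_insert_affineSpan]
      exact AffineSubspace.direction_affineSpan_insert (subset_affineSpan ℝ _ ht)
    rw [hT, AffineSubspace.direction_top] at h1
    have h2 : finrank ℝ E ≤ 1 + finrank ℝ (affineSpan ℝ (tight V q)).direction := by
      calc finrank ℝ E = finrank ℝ (⊤ : Submodule ℝ E) := by rw [finrank_top]
        _ = finrank ℝ ((Submodule.span ℝ {z -ᵥ t} ⊔ (affineSpan ℝ (tight V q)).direction :
            Submodule ℝ E)) := by rw [← h1]
        _ ≤ finrank ℝ (Submodule.span ℝ {z -ᵥ t}) +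
            finrank ℝ (affineSpan ℝ (tight V q)).direction :=
            Submodule.finrank_add_le_finrank_add_finrank _ _
        _ ≤ 1 + finrank ℝ (affineSpan ℝ (tight V q)).direction := by
            have : finrank ℝ (Submodule.span ℝ {z -ᵥ t}) ≤ 1 := by
              refine (finrank_span_le_card _).trans ?_
              simp
            omega
    have h3 : finrank ℝ (affineSpan ℝ (tight V q)).direction < finrank ℝ E := by
      apply Submodule.finrank_lt
      intro htop
      have h4 : (affineSpan ℝ (tight V q)).direction ≤ LinearMap.ker q.1 := by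
        rw [direction_affineSpan, vectorSpan_def, Submodule.span_le]
        rintro _ ⟨a, ha, b, hb, rfl⟩
        simp only [SetLike.mem_coe, LinearMap.mem_ker, vsub_eq_sub, map_sub]
        rw [ha.2, hb.2, sub_self]
      rw [htop, top_le_iff, LinearMap.ker_eq_top] at h4
      have h5 : q.1 t = q.2 := ht.2
      rw [h4] at h5 hz'
      simp only [LinearMap.zero_apply] at h5 hz'
      rw [← h5] at hz'
      apply hz
      linarith
    omega

end Lin

section Poly

variable {E : Type*} [NormedAddCommGroup E] [NormedSpace ℝ E] [FiniteDimensional ℝ E]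

/-- the facet inequalities describe the convex hull -/
theorem mem_hull {V : Finset E} (hV : affineSpan ℝ (V : Set E) = ⊤) (hd : 1 ≤ finrank ℝ E)
    {z : E} (h : ∀ q, IsFacet V (finrank ℝ E) q → q.1 z ≤ q.2) :
    z ∈ convexHull ℝ (V : Set E) := by
  by_contra hz
  obtain ⟨f, u, h1, h2⟩ := geometric_hahn_banach_closed_point (convex_convexHull ℝ (V : Set E))
    (V.finite_toSet.isCompact_convexHull ℝ).isClosed hz
  have hp : Valid V ((f : E →ₗ[ℝ] ℝ), u) := fun v hv =>
    (h1 v (subset_convexHull ℝ _ hv)).le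
  obtain ⟨q, hq, _, hz'⟩ := rotate hV hd hp (z := z) (by
    simp only [ContinuousLinearMap.coe_coe]
    exact h2.ne')
  have := h q hq
  simp only [ContinuousLinearMap.coe_coe] at hz'
  linarith

theorem hull_le {V : Finset E} {y : E} (hy : y ∈ convexHull ℝ (V : Set E)) {f : E →ₗ[ℝ] ℝ}
    {b : ℝ} (h : ∀ v ∈ V, f v ≤ b) : f y ≤ b := by
  have : convexHull ℝ (V : Set E) ⊆ {w | f w ≤ b} :=
    convexHull_min h (convex_halfSpace_le f.isLinear b)
  exact this hy

theorem le_hull {V : Finset E} {y : E} (hy : y ∈ convexHull ℝ (V : Set E)) {f : E →ₗ[ℝ] ℝ}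
    {b : ℝ} (h : ∀ v ∈ V, b ≤ f v) : b ≤ f y := by
  have : convexHull ℝ (V : Set E) ⊆ {w | b ≤ f w} :=
    convexHull_min h (convex_halfSpace_ge f.isLinear b)
  exact this hy

/-- facet functionals separate points -/
theorem facet_sep {V : Finset E} (hV : affineSpan ℝ (V : Set E) = ⊤) (hd : 1 ≤ finrank ℝ E)
    {y y' : E} (hy : y ∈ convexHull ℝ (V : Set E))
    (h : ∀ q, IsFacet V (finrank ℝ E) q → q.1 y = q.1 y') : y = y' := by
  by_contra hne
  have hδ : y' - y ≠ 0 := sub_ne_zero.2 (Ne.symm hne)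
  have h1 : ∃ f : E →ₗ[ℝ] ℝ, 0 < f (y' - y) := by
    by_contra hcon
    push Not at hcon
    apply hδ
    rw [← Module.forall_dual_apply_eq_zero_iff ℝ]
    intro φ
    have h2 := hcon φ
    have h3 := hcon (-φ)
    simp only [LinearMap.neg_apply] at h3
    exact le_antisymm h2 (by linarith)
  obtain ⟨f, hf⟩ := h1
  obtain ⟨b, hb⟩ : ∃ b, ∀ v ∈ V, f v ≤ b := by
    obtain ⟨b, hb⟩ := (V.image f).bddAbove
    exact ⟨b, fun v hv => hb (by
      simp only [Finset.coe_image]
      exact ⟨v, hv, rfl⟩)⟩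
  set t : ℝ := (b - f y + 1) / f (y' - y) with ht
  have htf : t * f (y' - y) = b - f y + 1 := div_mul_cancel₀ _ hf.ne'
  have hz : f (y + t • (y' - y)) = b + 1 := by
    rw [map_add, map_smul, smul_eq_mul, htf]
    ring
  obtain ⟨q, hq, _, hz'⟩ := rotate hV hd (p := (f, b)) hb (z := y + t • (y' - y)) (by
    simp only [hz]
    linarith)
  simp only [hz] at hz'
  have h2 : q.1 (y + t • (y' - y)) = q.1 y := by
    rw [map_add, map_smul, map_sub, ← h q hq, sub_self, smul_zero, add_zero]
  rw [h2] at hz'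
  have h3 := hull_le hy hq.1
  linarith

/-- the two values of a facet -/
theorem facet_values {V : Finset E} (hV : affineSpan ℝ (V : Set E) = ⊤) (hd : 1 ≤ finrank ℝ E)
    (h2 : ∀ p : (E →ₗ[ℝ] ℝ) × ℝ, IsFacet V (finrank ℝ E) p →
      ∃ b : ℝ, ∀ v ∈ V, p.1 v = p.2 ∨ p.1 v = b)
    {q : (E →ₗ[ℝ] ℝ) × ℝ} (hq : IsFacet V (finrank ℝ E) q) :
    ∃ b : ℝ, b < q.2 ∧ ∀ v ∈ V, q.1 v = q.2 ∨ q.1 v = b := by
  obtain ⟨b, hb⟩ := h2 q hq
  have hex : ∃ w ∈ V, q.1 w ≠ q.2 := by
    by_contra hcon
    push Not at hcon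
    have hT : tight V q = (V : Set E) := by
      ext x
      exact ⟨fun hx => hx.1, fun hx => ⟨hx, hcon x hx⟩⟩
    have h3 := hq.2.2
    rw [hT, hV, AffineSubspace.direction_top, finrank_top] at h3
    omega
  obtain ⟨w, hw, hne⟩ := hex
  refine ⟨b, ?_, hb⟩
  rcases hb w hw with h | h
  · exact absurd h hne
  · rw [← h]
    exact lt_of_le_of_ne (hq.1 w hw) hne

/-- the main hypothesis, packed -/
structure TL (V : Finset E) : Prop where
  span : affineSpan ℝ (V : Set E) = ⊤
  pos : 1 ≤ finrank ℝ E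
  two : ∀ p : (E →ₗ[ℝ] ℝ) × ℝ, IsFacet V (finrank ℝ E) p →
      ∃ b : ℝ, ∀ v ∈ V, p.1 v = p.2 ∨ p.1 v = b

/-- `u` is in the smallest face containing `v` and `x` -/
def Btw (V : Finset E) (v x u : E) : Prop :=
  ∀ q, IsFacet V (finrank ℝ E) q → v ∈ tight V q → x ∈ tight V q → u ∈ tight V q

theorem parallelogram {V : Finset E} (hTL : TL V) {v x u : E} (hv : v ∈ V) (hx : x ∈ V)
    (hu : u ∈ V) (h : Btw V v x u) : x + v - u ∈ V := by
  have hval : ∀ q, IsFacet V (finrank ℝ E) q → ∃ b : ℝ, b < q.2 ∧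
      (∀ y ∈ V, q.1 y = q.2 ∨ q.1 y = b) :=
    fun q hq => facet_values hTL.span hTL.pos hTL.two hq
  have hhull : x + v - u ∈ convexHull ℝ (V : Set E) := by
    apply mem_hull hTL.span hTL.pos
    intro q hq
    obtain ⟨b, hb, hV2⟩ := hval q hq
    rw [map_sub, map_add]
    rcases hV2 v hv with h1 | h1 <;> rcases hV2 x hx with h2 | h2
    · have h3 := (h q hq ⟨hv, h1⟩ ⟨hx, h2⟩).2
      rw [h1, h2, h3]
      linarith
    · rcases hV2 u hu with h3 | h3 <;> rw [h1, h2, h3] <;> linarith
    · rcases hV2 u hu with h3 | h3 <;> rw [h1, h2, h3] <;> linarith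
    · rcases hV2 u hu with h3 | h3 <;> rw [h1, h2, h3] <;> linarith
  have hw : ∀ q, IsFacet V (finrank ℝ E) q →
      q.1 (x + v - u) = q.2 ∨ (∀ y ∈ V, q.1 (x + v - u) ≤ q.1 y) := by
    intro q hq
    obtain ⟨b, hb, hV2⟩ := hval q hq
    have hlow : b ≤ q.1 (x + v - u) := le_hull hhull (fun y hy => by
      rcases hV2 y hy with h' | h' <;> rw [h'] 
      exact hb.le)
    have hlowV : ∀ y ∈ V, b ≤ q.1 y := fun y hy => by
      rcases hV2 y hy with h' | h' <;> rw [h']
      exact hb.le
    rw [map_sub, map_add] at hlow ⊢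
    rcases hV2 v hv with h1 | h1 <;> rcases hV2 x hx with h2 | h2
    · have h3 := (h q hq ⟨hv, h1⟩ ⟨hx, h2⟩).2
      left
      rw [h1, h2, h3]
      ring
    · rcases hV2 u hu with h3 | h3
      · right
        intro y hy
        rw [h1, h2, h3]
        have := hlowV y hy
        linarith
      · left
        rw [h1, h2, h3]
        ring
    · rcases hV2 u hu with h3 | h3
      · right
        intro y hy
        rw [h1, h2, h3]
        have := hlowV y hy
        linarith
      · left
        rw [h1, h2, h3]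
        ring
    · rcases hV2 u hu with h3 | h3
      · exfalso
        rw [h1, h2, h3] at hlow
        linarith
      · right
        intro y hy
        rw [h1, h2, h3]
        have := hlowV y hy
        linarith
  obtain ⟨lam, hl0, hl1, hl2⟩ := Finset.mem_convexHull'.1 hhull
  have hex : ∃ y ∈ V, 0 < lam y := by
    by_contra hcon
    push Not at hcon
    have : ∑ y ∈ V, lam y ≤ 0 := Finset.sum_nonpos hcon
    linarith
  obtain ⟨y0, hy0, hpos⟩ := hex
  have heq : ∀ q, IsFacet V (finrank ℝ E) q → q.1 (x + v - u) = q.1 y0 := by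
    intro q hq
    have hsum : ∑ y ∈ V, lam y * (q.1 y - q.1 (x + v - u)) = 0 := by
      have h1 : q.1 (x + v - u) = ∑ y ∈ V, lam y * q.1 y := by
        rw [← hl2, map_sum]
        refine Finset.sum_congr rfl (fun y _ => ?_)
        rw [map_smul, smul_eq_mul]
      simp only [mul_sub, Finset.sum_sub_distrib, ← Finset.sum_mul]
      rw [hl1, ← h1]
      ring
    rcases hw q hq with h1 | h1
    · have h2 : ∑ y ∈ V, lam y * (q.1 (x + v - u) - q.1 y) = 0 := by
        have : ∑ y ∈ V, lam y * (q.1 (x + v - u) - q.1 y) =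
            -∑ y ∈ V, lam y * (q.1 y - q.1 (x + v - u)) := by
          rw [← Finset.sum_neg_distrib]
          exact Finset.sum_congr rfl (fun y _ => by ring)
        rw [this, hsum, neg_zero]
      have h3 := (Finset.sum_eq_zero_iff_of_nonneg (fun y hy => mul_nonneg (hl0 y hy) (by
        rw [h1]
        have := hq.1 y hy
        linarith))).1 h2 y0 hy0
      rcases mul_eq_zero.1 h3 with h4 | h4
      · exact absurd h4 hpos.ne'
      · linarith
    · have h3 := (Finset.sum_eq_zero_iff_of_nonneg (fun y hy => mul_nonneg (hl0 y hy) (by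
        have := h1 y hy
        linarith))).1 hsum y0 hy0
      rcases mul_eq_zero.1 h3 with h4 | h4
      · exact absurd h4 hpos.ne'
      · linarith
  rw [facet_sep hTL.span hTL.pos hhull heq]
  exact hy0

theorem vertex_unique {V : Finset E} (hTL : TL V) {v w : E} (hv : v ∈ V) (hw : w ∈ V)
    (h : ∀ q, IsFacet V (finrank ℝ E) q → v ∈ tight V q → w ∈ tight V q) : w = v := by
  have hval : ∀ q, IsFacet V (finrank ℝ E) q → ∃ b : ℝ, b < q.2 ∧
      (∀ y ∈ V, q.1 y = q.2 ∨ q.1 y = b) :=
    fun q hq => facet_values hTL.span hTL.pos hTL.two hq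
  have hhull : v + v - w ∈ convexHull ℝ (V : Set E) := by
    apply mem_hull hTL.span hTL.pos
    intro q hq
    obtain ⟨b, hb, hV2⟩ := hval q hq
    rw [map_sub, map_add]
    rcases hV2 v hv with h1 | h1
    · have h3 := (h q hq ⟨hv, h1⟩).2
      rw [h1, h3]
      linarith
    · rcases hV2 w hw with h3 | h3 <;> rw [h1, h3] <;> linarith
  symm
  apply facet_sep hTL.span hTL.pos (subset_convexHull ℝ _ hv)
  intro q hq
  obtain ⟨b, hb, hV2⟩ := hval q hq
  have hlow : b ≤ q.1 (v + v - w) := le_hull hhull (fun y hy => by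
    rcases hV2 y hy with h' | h' <;> rw [h']
    exact hb.le)
  rw [map_sub, map_add] at hlow
  rcases hV2 v hv with h1 | h1
  · have h3 := (h q hq ⟨hv, h1⟩).2
    rw [h1, h3]
  · rcases hV2 w hw with h3 | h3
    · rw [h1, h3] at hlow
      linarith
    · rw [h1, h3]

/-- the edges at `v` in the smallest face containing `v` and `x` -/
theorem exists_edge {V : Finset E} (hTL : TL V) {v x : E} (hv : v ∈ V) (hx : x ∈ V)
    {k : (E →ₗ[ℝ] ℝ) × ℝ} (hk : IsFacet V (finrank ℝ E) k) (hvk : v ∈ tight V k)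
    (hxk : x ∉ tight V k) : ∃ u, IsEdge V v u ∧ u ∉ tight V k ∧ Btw V v x u := by
  classical
  let S : Finset E := V.filter (fun u => u ∉ tight V k ∧ Btw V v x u)
  have hS : S.Nonempty := ⟨x, by
    rw [Finset.mem_filter]
    exact ⟨hx, hxk, fun q _ _ h => h⟩⟩
  obtain ⟨u, huS, hmin⟩ := Finset.exists_min_image S
    (fun u => (V.filter (fun w => Btw V v u w)).card) hS
  rw [Finset.mem_filter] at huS
  obtain ⟨hu, huk, hxu⟩ := huS
  have huv : u ≠ v := fun h => huk (h ▸ hvk)
  have honly : ∀ w ∈ V, Btw V v u w → w = v ∨ w = u := by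
    intro w hw hbw
    by_contra hcon
    push Not at hcon
    obtain ⟨hwv, hwu⟩ := hcon
    have hw' : u + v - w ∈ V := parallelogram hTL hv hu hw hbw
    obtain ⟨b, hb, hV2⟩ := facet_values hTL.span hTL.pos hTL.two hk
    -- the second point is also in the face
    have hbw' : Btw V v u (u + v - w) := by
      intro q hq h1 h2
      refine ⟨hw', ?_⟩
      have h3 := (hbw q hq h1 h2).2
      rw [map_sub, map_add, h1.2, h2.2, h3]
      ring
    -- strictly smaller faces
    have hsub1 : ∀ w2 ∈ V, Btw V v u w2 → w2 ∉ tight V k →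
        (∃ q, IsFacet V (finrank ℝ E) q ∧ v ∈ tight V q ∧ w2 ∈ tight V q ∧ u ∉ tight V q) →
        False := by
      intro w2 hw2 hb2 hk2 hex
      have hmem : w2 ∈ S := by
        rw [Finset.mem_filter]
        exact ⟨hw2, hk2, fun q hq h1 h2 => hb2 q hq h1 (hxu q hq h1 h2)⟩
      have h1 := hmin w2 hmem
      have h2 : (V.filter (fun w => Btw V v w2 w)).card <
          (V.filter (fun w => Btw V v u w)).card := by
        apply Finset.card_lt_card
        rw [Finset.ssubset_iff_of_subset]
        · refine ⟨u, ?_, ?_⟩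
          · rw [Finset.mem_filter]
            exact ⟨hu, fun q _ _ h => h⟩
          · rw [Finset.mem_filter]
            rintro ⟨_, h3⟩
            obtain ⟨q, hq, ha, hb', hc⟩ := hex
            exact hc (h3 q hq ha hb')
        · intro y hy
          rw [Finset.mem_filter] at hy ⊢
          exact ⟨hy.1, fun q hq ha hb' => hy.2 q hq ha (hb2 q hq ha hb')⟩
      exact absurd h1 (not_le.2 h2)
    have hval : ∀ q, IsFacet V (finrank ℝ E) q → ∃ b : ℝ, b < q.2 ∧
        (∀ y ∈ V, q.1 y = q.2 ∨ q.1 y = b) :=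
      fun q hq => facet_values hTL.span hTL.pos hTL.two hq
    rcases hV2 w hw with h1 | h1
    · -- then the second point is not on the facet
      have h2 : u + v - w ∉ tight V k := by
        intro h3
        have h4 := h3.2
        rw [map_sub, map_add, h1, hvk.2] at h4
        rcases hV2 u hu with h5 | h5
        · exact huk ⟨hu, h5⟩
        · rw [h5] at h4
          linarith
      refine hsub1 _ hw' hbw' h2 ?_
      by_contra hno
      push Not at hno
      -- all facets through v and the second point contain u, hence w lies on all facets of v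
      apply hwv
      apply vertex_unique hTL hv hw
      intro q hq h3
      obtain ⟨b', hb', hV2'⟩ := hval q hq
      refine ⟨hw, ?_⟩
      rcases hV2' u hu with h5 | h5
      · exact (hbw q hq h3 ⟨hu, h5⟩).2
      · rcases hV2' w hw with h6 | h6
        · exact h6
        · exfalso
          have h7 : u + v - w ∈ tight V q := ⟨hw', by
            rw [map_sub, map_add, h5, h6, h3.2]
            ring⟩
          have h8 := hno q hq h3 h7
          have h9 := h8.2
          rw [h5] at h9
          linarith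
    · have h2 : w ∉ tight V k := by
        intro h3
        have := h3.2
        rw [h1] at this
        linarith
      refine hsub1 _ hw hbw h2 ?_
      by_contra hno
      push Not at hno
      apply hwu
      have h4 : u + v - w = v := by
        apply vertex_unique hTL hv hw'
        intro q hq h3
        obtain ⟨b', hb', hV2'⟩ := hval q hq
        refine ⟨hw', ?_⟩
        rcases hV2' w hw with h6 | h6
        · have h8 := (hno q hq h3 ⟨hw, h6⟩).2
          rw [map_sub, map_add, h6, h8, h3.2]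
          ring
        · rcases hV2' u hu with h5 | h5
          · have h7 := (hbw q hq h3 ⟨hu, h5⟩).2
            rw [h6] at h7
            linarith
          · rw [map_sub, map_add, h5, h6, h3.2]
            ring
      have h5 : u + v - w = v := h4
      have h6 : u - w = 0 := by
        have : u + v - w - v = u - w := by abel
        rw [← this, h5, sub_self]
      exact (sub_eq_zero.1 h6).symm
  refine ⟨u, ⟨hu, huv, ?_⟩, huk, hxu⟩
  -- the exposing functional
  have hchoice : ∀ z : E, ∃ q : (E →ₗ[ℝ] ℝ) × ℝ, Valid V q ∧ q.1 v = q.2 ∧ q.1 u = q.2 ∧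
      (z ∈ V → z ≠ v → z ≠ u → q.1 z < q.2) := by
    intro z
    by_cases hz : z ∈ V ∧ z ≠ v ∧ z ≠ u
    · have h1 : ¬ Btw V v u z := fun h => by
        rcases honly z hz.1 h with h2 | h2
        · exact hz.2.1 h2
        · exact hz.2.2 h2
      unfold Btw at h1
      push Not at h1
      obtain ⟨q, hq, h2, h3, h4⟩ := h1
      exact ⟨q, hq.1, h2.2, h3.2, fun _ _ _ =>
        lt_of_le_of_ne (hq.1 z hz.1) (fun h5 => h4 ⟨hz.1, h5⟩)⟩
    · refine ⟨(0, 0), fun w _ => by simp, by simp, by simp, ?_⟩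
      intro h1 h2 h3
      exact absurd ⟨h1, h2, h3⟩ hz
  choose Q hQ1 hQ2 hQ3 hQ4 using hchoice
  refine ⟨∑ z ∈ V, (Q z).1, ?_, ?_⟩
  · rw [LinearMap.sum_apply, LinearMap.sum_apply]
    exact Finset.sum_congr rfl (fun z _ => by rw [hQ2, hQ3])
  · intro w hw hwv hwu
    rw [LinearMap.sum_apply, LinearMap.sum_apply]
    apply Finset.sum_lt_sum
    · intro z _
      rw [hQ2 z]
      exact hQ1 z w hw
    · refine ⟨w, hw, ?_⟩
      rw [hQ2 w]
      exact hQ4 w hw hwv hwu

/-- a facet not containing `v` is complementary to some facet through `v` that misses `x` -/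
theorem exists_coatom {V : Finset E} (hTL : TL V) {v x : E} (hv : v ∈ V) (hx : x ∈ V)
    {i : (E →ₗ[ℝ] ℝ) × ℝ} (hi : IsFacet V (finrank ℝ E) i) (hvi : v ∉ tight V i)
    (hxi : x ∈ tight V i) : ∃ k, IsFacet V (finrank ℝ E) k ∧ v ∈ tight V k ∧ x ∉ tight V k ∧
      ∀ y ∈ V, y ∈ tight V k ∨ y ∈ tight V i := by
  obtain ⟨b, hb, hV2⟩ := facet_values hTL.span hTL.pos hTL.two hi
  have hp : Valid V (-i.1, -b) := by
    intro y hy
    simp only [LinearMap.neg_apply]
    rcases hV2 y hy with h | h <;> rw [h]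
    linarith
  obtain ⟨k, hk, hsub, hz⟩ := rotate hTL.span hTL.pos hp (z := x) (by
    simp only [LinearMap.neg_apply]
    rw [hxi.2]
    intro h
    linarith)
  simp only [LinearMap.neg_apply] at hz
  rw [hxi.2] at hz
  refine ⟨k, hk, ?_, ?_, ?_⟩
  · apply hsub
    refine ⟨hv, ?_⟩
    simp only [LinearMap.neg_apply]
    rcases hV2 v hv with h | h
    · exact absurd ⟨hv, h⟩ hvi
    · rw [h]
  · intro h
    have := h.2
    linarith
  · intro y hy
    rcases hV2 y hy with h | h
    · exact Or.inr ⟨hy, h⟩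
    · left
      apply hsub
      refine ⟨hy, ?_⟩
      simp only [LinearMap.neg_apply]
      rw [h]

theorem face_of_btw {V : Finset E} (hTL : TL V) {g : (E →ₗ[ℝ] ℝ) × ℝ} (hg : Valid V g)
    {v x u : E} (hv : v ∈ tight V g) (hx : x ∈ tight V g) (hu : u ∈ V) (h : Btw V v x u) :
    u ∈ tight V g := by
  have h1 := parallelogram hTL hv.1 hx.1 hu h
  have h2 := hg _ h1
  have h3 := hg _ hu
  rw [map_sub, map_add, hv.2, hx.2] at h2
  exact ⟨hu, le_antisymm h3 (by linarith)⟩

end Poly

end Pool.Agent.Lib.MP_663fff_lc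
end

section

/-!
# MP_663fff_lc: from covers of vertex figures to protocols for the slack matrix
-/

open Module

namespace Pool.Agent.Lib.MP_663fff_lc

variable {E : Type*} [NormedAddCommGroup E] [NormedSpace ℝ E] [FiniteDimensional ℝ E]

/-- the scaled functionals -/
theorem exists_scale {V : Finset E} (hTL : TL V) {v : E} (hv : v ∈ V) (i : (E →ₗ[ℝ] ℝ) × ℝ)
    (hi : IsFacet V (finrank ℝ E) i) :
    ∃ s : ℝ, ∀ x ∈ V, (s * i.1 (x - v) = 0 ∨ s * i.1 (x - v) = 1) ∧
      (s * i.1 (x - v) = 1 ↔ ¬ (x ∈ tight V i ↔ v ∈ tight V i)) := by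
  obtain ⟨b, hb, hV2⟩ := facet_values hTL.span hTL.pos hTL.two hi
  have hbne : b - i.2 ≠ 0 := by
    intro h
    linarith
  have hbne' : i.2 - b ≠ 0 := by
    intro h
    linarith
  rcases hV2 v hv with hvv | hvv
  · refine ⟨(b - i.2)⁻¹, fun x hx => ?_⟩
    rw [map_sub, hvv]
    have hvt : v ∈ tight V i := ⟨hv, hvv⟩
    rcases hV2 x hx with h | h
    · have hxt : x ∈ tight V i := ⟨hx, h⟩
      rw [h, sub_self, mul_zero]
      refine ⟨Or.inl rfl, ?_⟩
      simp [hvt, hxt]
    · have hxt : x ∉ tight V i := fun h' => by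
        have := h'.2
        rw [h] at this
        linarith
      rw [h, inv_mul_cancel₀ hbne]
      refine ⟨Or.inr rfl, ?_⟩
      simp [hvt, hxt]
  · refine ⟨(i.2 - b)⁻¹, fun x hx => ?_⟩
    rw [map_sub, hvv]
    have hvt : v ∉ tight V i := fun h' => by
      have := h'.2
      rw [hvv] at this
      linarith
    rcases hV2 x hx with h | h
    · have hxt : x ∈ tight V i := ⟨hx, h⟩
      rw [h, inv_mul_cancel₀ hbne']
      refine ⟨Or.inr rfl, ?_⟩
      simp [hvt, hxt]
    · have hxt : x ∉ tight V i := fun h' => by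
        have := h'.2
        rw [h] at this
        linarith
      rw [h, sub_self, mul_zero]
      refine ⟨Or.inl rfl, ?_⟩
      simp [hvt, hxt]

/-- evaluation of functionals at the vectors `x - v` -/
noncomputable def evalMap (V : Finset E) (v : E) : (E →ₗ[ℝ] ℝ) →ₗ[ℝ] (V → ℝ) where
  toFun φ := fun x => φ (x.1 - v)
  map_add' f g := by
    funext x
    simp
  map_smul' r f := by
    funext x
    simp

theorem rk_le {V : Finset E} {v : E} {α : Type*} (N : α → V → ℝ) (A : Set α) (B : Set V)
    (s : α → ℝ) (i : α → (E →ₗ[ℝ] ℝ)) (h : ∀ a x, N a x = s a * i a (x.1 - v)) :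
    rk N A B ≤ finrank ℝ E := by
  have h1 : Submodule.span ℝ (N '' A) ≤ LinearMap.range (evalMap V v) := by
    rw [Submodule.span_le]
    rintro _ ⟨a, _, rfl⟩
    refine ⟨s a • i a, ?_⟩
    funext x
    rw [h a x]
    rfl
  unfold rk rowSpace
  calc finrank ℝ ((Submodule.span ℝ (N '' A)).map (mask B))
      ≤ finrank ℝ (Submodule.span ℝ (N '' A)) := Submodule.finrank_map_le _ _
    _ ≤ finrank ℝ (LinearMap.range (evalMap V v)) := Submodule.finrank_mono h1
    _ ≤ finrank ℝ (E →ₗ[ℝ] ℝ) := LinearMap.finrank_range_le _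
    _ = finrank ℝ E := Subspace.dual_finrank_eq

/-- one face: the protocol on the columns of the face `g` -/
theorem face_protocol {V : Finset E} (hTL : TL V) {g : (E →ₗ[ℝ] ℝ) × ℝ} (hg : Valid V g)
    {v : E} (hv : v ∈ tight V g) {c : ℕ} (hfig : FigureCover V (finrank ℝ E) g v c) :
    HasProtocol (fun (p : {p : (E →ₗ[ℝ] ℝ) × ℝ // IsFacet V (finrank ℝ E) p}) (x : V) =>
      x.1 ∈ tight V p.1) Set.univ {x : V | x.1 ∈ tight V g}
      (2 * (c + 1) * Nat.clog 2 (finrank ℝ E) + 3) := by
  classical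
  have hvV : v ∈ V := hv.1
  choose s hs using fun p : {p : (E →ₗ[ℝ] ℝ) × ℝ // IsFacet V (finrank ℝ E) p} =>
    exists_scale hTL hvV p.1 p.2
  let N : {p : (E →ₗ[ℝ] ℝ) × ℝ // IsFacet V (finrank ℝ E) p} → V → ℝ :=
    fun p x => s p * p.1.1 (x.1 - v)
  have hN1 : ∀ p x, (N p x = 1 ↔ ¬ (x.1 ∈ tight V p.1 ↔ v ∈ tight V p.1)) :=
    fun p x => (hs p x.1 x.2).2
  have hN01 : ∀ p x, N p x = 0 ∨ N p x = 1 := fun p x => (hs p x.1 x.2).1
  obtain ⟨R, C, hR, hC, hRC, hcov⟩ := hfig
  let R' : Fin (2 ^ c) → Set {p : (E →ₗ[ℝ] ℝ) × ℝ // IsFacet V (finrank ℝ E) p} := fun j =>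
    {i | (v ∈ tight V i.1 ∧ i.1 ∈ R j) ∨ (v ∉ tight V i.1 ∧ ∃ k ∈ R j,
      ∀ y ∈ V, y ∈ tight V k ∨ y ∈ tight V i.1)}
  let C' : Fin (2 ^ c) → Set V := fun j => {x | ∃ u ∈ C j, Btw V v x.1 u}
  have h1 : ∀ j, ∀ i ∈ R' j, ∀ x ∈ C' j, i ∈ (Set.univ : Set _) →
      x ∈ {x : V | x.1 ∈ tight V g} → N i x = 1 := by
    intro j i hi x hx _ _
    obtain ⟨u, hu, hbtw⟩ := hx
    rw [hN1]
    rcases hi with ⟨hvi, hiR⟩ | ⟨hvi, k, hk, hcomp⟩
    · intro hcon
      have hxi : x.1 ∈ tight V i.1 := hcon.2 hvi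
      exact hRC j i.1 hiR u hu (hbtw i.1 i.2 hvi hxi)
    · intro hcon
      have hxi : x.1 ∉ tight V i.1 := fun h => hvi (hcon.1 h)
      have hxk : x.1 ∈ tight V k := by
        rcases hcomp x.1 x.2 with h | h
        · exact h
        · exact absurd h hxi
      exact hRC j k hk u hu (hbtw k (hR j k hk).1 (hR j k hk).2 hxk)
  have h2 : ∀ i ∈ (Set.univ : Set {p : (E →ₗ[ℝ] ℝ) × ℝ // IsFacet V (finrank ℝ E) p}),
      ∀ x ∈ {x : V | x.1 ∈ tight V g}, N i x = 1 → ∃ j, i ∈ R' j ∧ x ∈ C' j := by
    intro i _ x hxg hN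
    rw [hN1] at hN
    by_cases hvi : v ∈ tight V i.1
    · have hxi : x.1 ∉ tight V i.1 := fun h => hN ⟨fun _ => hvi, fun _ => h⟩
      obtain ⟨u, hue, huk, hbtw⟩ := exists_edge hTL hvV x.2 i.2 hvi hxi
      have hug : u ∈ tight V g := face_of_btw hTL hg hv hxg hue.1 hbtw
      obtain ⟨j, hj1, hj2⟩ := hcov i.1 u i.2 hvi hue hug huk
      exact ⟨j, Or.inl ⟨hvi, hj1⟩, u, hj2, hbtw⟩
    · have hxi : x.1 ∈ tight V i.1 := by
        by_contra h
        exact hN ⟨fun h' => absurd h' h, fun h' => absurd h' hvi⟩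
      obtain ⟨k, hk, hvk, hxk, hcomp⟩ := exists_coatom hTL hvV x.2 i.2 hvi hxi
      obtain ⟨u, hue, huk, hbtw⟩ := exists_edge hTL hvV x.2 hk hvk hxk
      have hug : u ∈ tight V g := face_of_btw hTL hg hv hxg hue.1 hbtw
      obtain ⟨j, hj1, hj2⟩ := hcov k u hk hvk hue hug huk
      exact ⟨j, Or.inr ⟨hvi, k, hj1, hcomp⟩, u, hj2, hbtw⟩
  have hP := hp_of_cover (N := N) (A0 := Set.univ) (B0 := {x : V | x.1 ∈ tight V g})
    (fun i _ x _ => hN01 i x) R' C' h1 h2 (finrank ℝ E) Set.univ _ le_rfl le_rfl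
    (rk_le (v := v) N _ _ s (fun i => i.1.1) (fun _ _ => rfl))
  have e : (Set.univ : Set {p : (E →ₗ[ℝ] ℝ) × ℝ // IsFacet V (finrank ℝ E) p}) =
      {i | v ∈ tight V i.1} ∪ {i | v ∉ tight V i.1} := by
    ext i
    simp only [Set.mem_univ, Set.mem_union, Set.mem_ofPred_eq, true_iff]
    exact Classical.em _
  rw [e]
  refine HasProtocol.alice _ _ _ _ ?_ ?_ ?_
  · rw [Set.disjoint_left]
    intro i hi hi'
    exact hi' hi
  · refine hp_transfer hP _ _ (Set.subset_univ _) le_rfl ?_
    intro i hi i' hi' x _ x' _ h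
    simp only [hN1] at h
    have hi1 : v ∈ tight V i.1 := hi
    have hi2 : v ∈ tight V i'.1 := hi'
    simp only [hi1, hi2, iff_true] at h
    exact not_iff_not.1 h
  · refine hp_transfer hP _ _ (Set.subset_univ _) le_rfl ?_
    intro i hi i' hi' x _ x' _ h
    simp only [hN1] at h
    have hi1 : v ∉ tight V i.1 := hi
    have hi2 : v ∉ tight V i'.1 := hi'
    simp only [hi1, hi2, iff_false, not_not] at h
    exact h

/-- the general theorem -/
theorem main_protocol {V : Finset E} (hTL : TL V) {k c : ℕ}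
    (g : Fin (2 ^ k) → (E →ₗ[ℝ] ℝ) × ℝ) (v : Fin (2 ^ k) → E)
    (hg : ∀ j, Valid V (g j)) (hv : ∀ j, v j ∈ tight V (g j))
    (hcov : ∀ x ∈ V, ∃ j, x ∈ tight V (g j))
    (hfig : ∀ j, FigureCover V (finrank ℝ E) (g j) (v j) c) :
    HasProtocol (fun (p : {p : (E →ₗ[ℝ] ℝ) × ℝ // IsFacet V (finrank ℝ E) p}) (x : V) =>
      x.1 ∈ tight V p.1) Set.univ Set.univ
      (k + 2 * (c + 1) * Nat.clog 2 (finrank ℝ E) + 3) := by
  choose J hJ using fun x : V => hcov x.1 x.2
  have h := hp_cols (M := fun (p : {p : (E →ₗ[ℝ] ℝ) × ℝ // IsFacet V (finrank ℝ E) p}) (x : V) =>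
      x.1 ∈ tight V p.1) (A := Set.univ) (n := 2 * (c + 1) * Nat.clog 2 (finrank ℝ E) + 3)
      (fun x => (J x).val) k Set.univ 0 ?_ ?_
  · refine hp_mono h ?_
    omega
  · intro x _
    refine ⟨Nat.zero_le _, ?_⟩
    rw [zero_add]
    exact (J x).isLt
  · intro j
    by_cases hj : j < 2 ^ k
    · refine hp_sub (face_protocol hTL (hg ⟨j, hj⟩) (hv ⟨j, hj⟩) (hfig ⟨j, hj⟩)) le_rfl ?_
      intro x hx
      have h1 : (J x).val = j := hx.2
      have h2 : J x = ⟨j, hj⟩ := Fin.ext h1
      have h3 := hJ x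
      rw [h2] at h3
      exact h3
    · have : {x : V | x ∈ (Set.univ : Set V) ∧ (J x).val = j} = ∅ := by
        ext x
        simp only [Set.mem_univ, true_and, Set.mem_ofPred_eq, Set.mem_empty_iff_false, iff_false]
        intro h
        exact hj (h ▸ (J x).isLt)
      rw [this]
      exact hp_empty_right _ _ _

end Pool.Agent.Lib.MP_663fff_lc
end
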